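import Mathlib

/-!
The singular cohomology of a contractible space vanishes in positive degrees.
-/

set_option autoImplicit false

open CategoryTheory Limits AlgebraicTopology

namespace Pool.Agent.N137.PdR

theorem isZero_of_contractible (X : Type) [TopologicalSpace X] [ContractibleSpace X] (n : ℕ)
    (hn : n ≠ 0) :
    IsZero (((singularHomologyFunctor (ModuleCat.{0} ℂ) n).obj (ModuleCat.of ℂ ℂ)).obj
      (TopCat.of X)) := by
  obtain ⟨y, ⟨H⟩⟩ := id_nullhomotopic X
  let f : TopCat.of X ⟶ TopCat.of PUnit.{1} := TopCat.ofHom (ContinuousMap.const X PUnit.unit)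
  let g : TopCat.of PUnit.{1} ⟶ TopCat.of X := TopCat.ofHom (ContinuousMap.const _ y)
  have hH : TopCat.Homotopy (𝟙 (TopCat.of X)) (f ≫ g) := H
  have h1 := hH.congr_homologyMap_singularChainComplexFunctor (ModuleCat.of ℂ ℂ) n
  set F := (singularHomologyFunctor (ModuleCat.{0} ℂ) n).obj (ModuleCat.of ℂ ℂ) with hF
  have h2 : F.map (𝟙 (TopCat.of X)) = F.map (f ≫ g) := h1
  have hz : IsZero (F.obj (TopCat.of PUnit.{1})) :=
    isZero_singularHomologyFunctor_of_totallyDisconnectedSpace (ModuleCat.{0} ℂ) n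
      (ModuleCat.of ℂ ℂ) (TopCat.of PUnit.{1}) hn
  rw [IsZero.iff_id_eq_zero, ← F.map_id, h2, F.map_comp, hz.eq_of_tgt (F.map f) 0, zero_comp]

end Pool.Agent.N137.PdR
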