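import Pool.Agent.TH212.CuspVar

/-!
The zeroth Poisson homology of `ℂ + (x, y) ^ 2` is one-dimensional, and the second singular
cohomology of `ℂ ^ 2` vanishes.
-/

set_option autoImplicit false

namespace Pool.Agent.N137.PdR

open Pool.Agent.TH212 MvPolynomial

/-- the constant coefficient on `ℂ + (x, y) ^ 2` -/
noncomputable def cc : OX →ₗ[ℂ] ℂ where
  toFun f := constantCoeff (f : MvPolynomial (Fin 2) ℂ)
  map_add' a b := by simp
  map_smul' c a := by
    rw [Subalgebra.coe_smul, MvPolynomial.smul_eq_C_mul, map_mul, constantCoeff_C]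
    rfl

theorem cc_surj : Function.Surjective cc := by
  intro c
  refine ⟨algebraMap ℂ OX c, ?_⟩
  change constantCoeff (algebraMap ℂ (MvPolynomial (Fin 2) ℂ) c) = c
  rw [MvPolynomial.algebraMap_eq, constantCoeff_C]

/-- the monomial `x ^ a y ^ b` -/
noncomputable def mo (a b : ℕ) : MvPolynomial (Fin 2) ℂ := X 0 ^ a * X 1 ^ b

theorem pd0 (a b : ℕ) : pderiv 0 (mo a b) = (a : MvPolynomial (Fin 2) ℂ) * X 0 ^ (a - 1) * X 1 ^ b := by
  unfold mo
  rw [Derivation.leibniz, Derivation.leibniz_pow, Derivation.leibniz_pow, pderiv_X_self,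
    pderiv_X_of_ne (show (1 : Fin 2) ≠ 0 by decide)]
  simp only [smul_eq_mul, nsmul_eq_mul]
  ring

theorem pd1 (a b : ℕ) : pderiv 1 (mo a b) = (b : MvPolynomial (Fin 2) ℂ) * X 0 ^ a * X 1 ^ (b - 1) := by
  unfold mo
  rw [Derivation.leibniz, Derivation.leibniz_pow, Derivation.leibniz_pow, pderiv_X_self,
    pderiv_X_of_ne (show (0 : Fin 2) ≠ 1 by decide)]
  simp only [smul_eq_mul, nsmul_eq_mul]
  ring

theorem mo_mem {a b : ℕ} (h : a + b ≠ 1) : mo a b ∈ OX := by
  intro i
  have h2 : i = 0 ∨ i = 1 := by omega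
  rcases h2 with rfl | rfl
  · rw [pd0]
    rcases Nat.eq_zero_or_pos a with ha | ha
    · subst ha; simp
    rcases Nat.eq_zero_or_pos b with hb | hb
    · subst hb
      have : a - 1 ≠ 0 := by omega
      simp [this]
    · simp [hb.ne']
  · rw [pd1]
    rcases Nat.eq_zero_or_pos b with ha | ha
    · subst ha; simp
    rcases Nat.eq_zero_or_pos a with hb | hb
    · subst hb
      have : b - 1 ≠ 0 := by omega
      simp [this]
    · simp [hb.ne']

theorem brk {f g : MvPolynomial (Fin 2) ℂ} (hf : f ∈ OX) (hg : g ∈ OX) (h : pb f g ∈ OX) :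
    (⟨pb f g, h⟩ : OX) ∈ PO.brackets := by
  refine Submodule.subset_span ⟨⟨f, hf⟩, ⟨g, hg⟩, ?_⟩
  apply Subtype.ext
  rw [PO_val]

theorem mo_brackets {a b : ℕ} (h : 2 ≤ a + b) :
    (⟨mo a b, mo_mem (by omega)⟩ : OX) ∈ PO.brackets := by
  by_cases hab : a = b
  · subst hab
    have ha : 1 ≤ a := by omega
    have e : pb (mo 0 2) (mo (a + 1) (a - 1)) =
        C (2 * ((a : ℂ) + 1)) * mo a a := by
      rw [pb_apply, pd0, pd0, pd1, pd1]
      obtain ⟨k, rfl⟩ : ∃ k, a = k + 1 := ⟨a - 1, by omega⟩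
      simp only [mo, map_mul, map_add, map_ofNat, map_one, map_natCast]
      have h5 : k + 1 - 1 = k := by omega
      rw [h5]
      push_cast
      ring
    have hm := brk (mo_mem (a := 0) (b := 2) (by omega))
      (mo_mem (a := a + 1) (b := a - 1) (by omega)) (by
        rw [e, ← MvPolynomial.smul_eq_C_mul]
        exact OX.smul_mem (mo_mem (by omega)) _)
    have h2 := PO.brackets.smul_mem (2 * ((a : ℂ) + 1))⁻¹ hm
    have e2 : (2 * ((a : ℂ) + 1))⁻¹ • (⟨pb (mo 0 2) (mo (a + 1) (a - 1)), by
        rw [e, ← MvPolynomial.smul_eq_C_mul]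
        exact OX.smul_mem (mo_mem (by omega)) _⟩ : OX) =
        ⟨mo a a, mo_mem (by omega)⟩ := by
      apply Subtype.ext
      rw [Subalgebra.coe_smul]
      change _ • pb _ _ = mo a a
      rw [e, ← MvPolynomial.smul_eq_C_mul, smul_smul, inv_mul_cancel₀, one_smul]
      have : (a : ℂ) + 1 ≠ 0 := by exact_mod_cast Nat.succ_ne_zero a
      exact mul_ne_zero two_ne_zero this
    rw [← e2]
    exact h2
  · have e : pb (mo 1 1) (mo a b) = C ((a : ℂ) - b) * mo a b := by
      rw [pb_apply, pd0, pd0, pd1, pd1]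
      simp only [mo, map_sub, map_natCast]
      rcases Nat.eq_zero_or_pos a with ha | ha
      · subst ha
        obtain ⟨k, rfl⟩ : ∃ k, b = k + 1 := ⟨b - 1, by omega⟩
        simp only [Nat.add_sub_cancel]
        push_cast
        ring
      rcases Nat.eq_zero_or_pos b with hb | hb
      · subst hb
        obtain ⟨k, rfl⟩ : ∃ k, a = k + 1 := ⟨a - 1, by omega⟩
        simp only [Nat.add_sub_cancel]
        push_cast
        ring
      · obtain ⟨k, rfl⟩ : ∃ k, b = k + 1 := ⟨b - 1, by omega⟩
        obtain ⟨l, rfl⟩ : ∃ l, a = l + 1 := ⟨a - 1, by omega⟩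
        simp only [Nat.add_sub_cancel]
        push_cast
        ring
    have hm := brk (mo_mem (a := 1) (b := 1) (by omega))
      (mo_mem (a := a) (b := b) (by omega)) (by
        rw [e, ← MvPolynomial.smul_eq_C_mul]
        exact OX.smul_mem (mo_mem (by omega)) _)
    have h2 := PO.brackets.smul_mem ((a : ℂ) - b)⁻¹ hm
    have e2 : ((a : ℂ) - b)⁻¹ • (⟨pb (mo 1 1) (mo a b), by
        rw [e, ← MvPolynomial.smul_eq_C_mul]
        exact OX.smul_mem (mo_mem (by omega)) _⟩ : OX) =
        ⟨mo a b, mo_mem (by omega)⟩ := by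
      apply Subtype.ext
      rw [Subalgebra.coe_smul]
      change _ • pb _ _ = mo a b
      rw [e, ← MvPolynomial.smul_eq_C_mul, smul_smul, inv_mul_cancel₀, one_smul]
      rw [sub_ne_zero]
      exact_mod_cast hab
    rw [← e2]
    exact h2

theorem mono_eq (m : Fin 2 →₀ ℕ) (c : ℂ) : monomial m c = c • mo (m 0) (m 1) := by
  rw [monomial_eq, MvPolynomial.smul_eq_C_mul, Finsupp.prod_fintype _ _ (by simp)]
  simp [mo]

theorem cc_ker : LinearMap.ker cc = PO.brackets := by
  apply le_antisymm
  · rintro ⟨f, hf⟩ h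
    have h0 : constantCoeff f = 0 := h
    have key : ∀ m ∈ f.support, ∃ hm : monomial m (coeff m f) ∈ OX,
        (⟨monomial m (coeff m f), hm⟩ : OX) ∈ PO.brackets := by
      intro m hm
      have h2 : 2 ≤ m 0 + m 1 := by
        by_contra hlt
        push Not at hlt
        apply MvPolynomial.mem_support_iff.1 hm
        have h3 : (m 0 = 0 ∧ m 1 = 0) ∨ (m 0 = 1 ∧ m 1 = 0) ∨ (m 0 = 0 ∧ m 1 = 1) := by omega
        rcases h3 with ⟨a, b⟩ | ⟨a, b⟩ | ⟨a, b⟩
        · have : m = 0 := by
            ext i; fin_cases i <;> simpa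
          rw [this]
          exact h0
        · have : m = Finsupp.single 0 1 := by
            ext i; fin_cases i <;> simp [a, b]
          rw [this]
          have := hf 0
          rw [MvPolynomial.constantCoeff_eq, MvPolynomial.coeff_pderiv] at this
          simpa using this
        · have : m = Finsupp.single 1 1 := by
            ext i; fin_cases i <;> simp [a, b]
          rw [this]
          have := hf 1
          rw [MvPolynomial.constantCoeff_eq, MvPolynomial.coeff_pderiv] at this
          simpa using this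
      have hmem : monomial m (coeff m f) ∈ OX := by
        rw [mono_eq]
        exact OX.smul_mem (mo_mem (by omega)) _
      refine ⟨hmem, ?_⟩
      have e : (⟨monomial m (coeff m f), hmem⟩ : OX) =
          coeff m f • (⟨mo (m 0) (m 1), mo_mem (by omega)⟩ : OX) := by
        apply Subtype.ext
        rw [Subalgebra.coe_smul]
        exact mono_eq _ _
      rw [e]
      exact PO.brackets.smul_mem _ (mo_brackets h2)
    have e : (⟨f, hf⟩ : OX) = ∑ m ∈ f.support.attach,
        ⟨monomial m.1 (coeff m.1 f), (key m.1 m.2).1⟩ := by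
      apply Subtype.ext
      rw [AddSubmonoidClass.coe_finsetSum]
      change f = ∑ m ∈ f.support.attach, monomial m.1 (coeff m.1 f)
      rw [Finset.sum_attach f.support (fun m => monomial m (coeff m f))]
      exact (MvPolynomial.support_sum_monomial_coeff f).symm
    rw [e]
    exact Submodule.sum_mem _ fun m _ => (key m.1 m.2).2
  · unfold PoissonBracket.brackets
    rw [Submodule.span_le]
    rintro z ⟨a, b, rfl⟩
    change constantCoeff ((PO.br a b : OX) : MvPolynomial (Fin 2) ℂ) = 0
    rw [PO_val, pb_apply, map_sub, map_mul, map_mul, a.2 0, a.2 1]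
    ring

theorem rank_HP0 : Module.rank ℂ PO.HP0 = 1 := by
  have e : (OX ⧸ PO.brackets) ≃ₗ[ℂ] ℂ :=
    (Submodule.quotEquivOfEq _ _ cc_ker.symm).trans
      (cc.quotKerEquivOfSurjective cc_surj)
  exact e.rank_eq.trans (Module.rank_self ℂ)

end Pool.Agent.N137.PdR
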